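import Mathlib

set_option autoImplicit false
open Pointwise Set Cardinal

namespace Pool.Agent.H.MP_9865ab_al

universe u

theorem exists_max_disjoint {G : Type u} [DecidableEq G] (T : G → Finset G)
    (hT : ∀ x, (T x).Nonempty) :
    ∃ X : Set G, X.Pairwise (fun x y => Disjoint (T x) (T y)) ∧
      ∀ y, ∃ x ∈ X, ¬ Disjoint (T x) (T y) := by
  obtain ⟨X, hX⟩ := zorn_subset {X : Set G | X.Pairwise (fun x y => Disjoint (T x) (T y))} (by
    intro c hc hchain
    refine ⟨⋃₀ c, ?_, fun s hs => subset_sUnion_of_mem hs⟩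
    rintro x ⟨s, hs, hx⟩ y ⟨t, ht, hy⟩ hxy
    rcases hchain.total hs ht with h | h
    · exact hc ht (h hx) hy hxy
    · exact hc hs hx (h hy) hxy)
  refine ⟨X, hX.prop, fun y => ?_⟩
  by_contra hcon
  push Not at hcon
  have hy : y ∉ X := by
    intro hy
    have := hcon y hy
    rw [disjoint_self] at this
    exact (hT y).ne_empty this
  have : (insert y X).Pairwise (fun x y => Disjoint (T x) (T y)) := by
    refine hX.prop.insert fun x hx _ => ⟨(hcon x hx).symm, hcon x hx⟩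
  exact hy (hX.le_of_ge this (subset_insert y X) (mem_insert y X))

theorem geom (N : ℕ) : ∑ n ∈ Finset.range N, (1 / 2 : ℚ) ^ (n + 1) = 1 - (1 / 2) ^ N := by
  induction N with
  | zero => simp
  | succ N ih => rw [Finset.sum_range_succ, ih]; ring

theorem hall_part {G : Type u} [DecidableEq G] (T : ℕ → G → Finset G)
    (hT : ∀ m x, (T m x).card = 2 ^ (m + 1)) :
    ∃ B : ℕ → Set G, Pairwise (fun i j => Disjoint (B i) (B j)) ∧
      ∀ m y, ∃ x, ¬ Disjoint (T m x) (T m y) ∧ ∃ b ∈ B m, b ∈ T m x := by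
  classical
  have hne : ∀ m x, (T m x).Nonempty := fun m x => by
    rw [← Finset.card_pos, hT]; positivity
  choose X hX1 hX2 using fun m => exists_max_disjoint (T m) (hne m)
  let ι := {p : ℕ × G // p.2 ∈ X p.1}
  let t : ι → Finset G := fun p => T p.1.1 p.1.2
  obtain ⟨f, hf1, hf2⟩ := (Finset.all_card_le_biUnion_card_iff_exists_injective t).1 (by
    intro s
    let N := s.sup (fun p => p.1.1) + 1
    have h1 : s.card = ∑ n ∈ Finset.range N, (s.filter (fun p => p.1.1 = n)).card := by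
      apply Finset.card_eq_sum_card_fiberwise
      intro p hp
      have : p.1.1 ≤ s.sup (fun p => p.1.1) := Finset.le_sup (f := fun p : ι => p.1.1) hp
      simp only [Finset.coe_range, mem_Iio, N]
      omega
    have h2 : ∀ n, (s.filter (fun p => p.1.1 = n)).card * 2 ^ (n + 1) ≤ (s.biUnion t).card := by
      intro n
      have h3 : ((s.filter (fun p => p.1.1 = n)).biUnion t).card
          = ∑ p ∈ s.filter (fun p => p.1.1 = n), (t p).card := by
        apply Finset.card_biUnion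
        intro p hp q hq hpq
        have hp' : p.1.1 = n := (Finset.mem_filter.1 hp).2
        have hq' : q.1.1 = n := (Finset.mem_filter.1 hq).2
        have hne2 : p.1.2 ≠ q.1.2 := by
          intro h
          exact hpq (Subtype.ext (Prod.ext (hp'.trans hq'.symm) h))
        have hp2 := p.2
        have hq2 := q.2
        rw [hp'] at hp2
        rw [hq'] at hq2
        have := hX1 n hp2 hq2 hne2
        simp only [Function.onFun, t, hp', hq']
        exact this
      have h4 : ∑ p ∈ s.filter (fun p => p.1.1 = n), (t p).card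
          = (s.filter (fun p => p.1.1 = n)).card * 2 ^ (n + 1) := by
        rw [← smul_eq_mul, ← Finset.sum_const]
        apply Finset.sum_congr rfl
        intro p hp
        have hp' : p.1.1 = n := (Finset.mem_filter.1 hp).2
        simp only [t, hT, hp']
      rw [← h4, ← h3]
      exact Finset.card_le_card
        (Finset.biUnion_subset_biUnion_of_subset_left t (Finset.filter_subset _ _))
    have h5 : (s.card : ℚ) ≤ (s.biUnion t).card := by
      rw [h1]
      push_cast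
      calc ∑ n ∈ Finset.range N, ((s.filter (fun p => p.1.1 = n)).card : ℚ)
          ≤ ∑ n ∈ Finset.range N, ((s.biUnion t).card : ℚ) * (1 / 2) ^ (n + 1) := by
            apply Finset.sum_le_sum
            intro n _
            have h6 : ((s.filter (fun p => p.1.1 = n)).card : ℚ) * 2 ^ (n + 1)
                ≤ (s.biUnion t).card := by exact_mod_cast h2 n
            rw [one_div, inv_pow, ← div_eq_mul_inv, le_div_iff₀ (by positivity)]
            exact h6
        _ = ((s.biUnion t).card : ℚ) * (1 - (1 / 2) ^ N) := by rw [← Finset.mul_sum, geom]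
        _ ≤ (s.biUnion t).card := by
            have : (0 : ℚ) ≤ (1 / 2) ^ N := by positivity
            have h7 : (0 : ℚ) ≤ (s.biUnion t).card := by positivity
            nlinarith
    exact_mod_cast h5)
  refine ⟨fun m => f '' {p | p.1.1 = m}, ?_, ?_⟩
  · intro i j hij
    refine Set.disjoint_left.2 ?_
    rintro _ ⟨p, hp, rfl⟩ ⟨q, hq, hpq⟩
    have := hf1 hpq
    subst this
    exact hij (Eq.trans (Eq.symm hp) hq)
  · intro m y
    obtain ⟨x, hx, hxy⟩ := hX2 m y
    exact ⟨x, hxy, f ⟨(m, x), hx⟩, ⟨⟨(m, x), hx⟩, rfl, rfl⟩, hf2 ⟨(m, x), hx⟩⟩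

theorem countable_case {G : Type u} [Group G] [Infinite G] :
    ∃ A : ℕ → Set G, Pairwise (fun i j => Disjoint (A i) (A j)) ∧
      ∀ n, (∃ F : Set G, F.Finite ∧ F * A n = Set.univ) ∧
        (∃ F : Set G, F.Finite ∧ A n * F = Set.univ) := by
  classical
  choose E hE using fun m : ℕ => Infinite.exists_subset_card_eq G (2 ^ (m + 1))
  let T : ℕ → G → Finset G := fun m x =>
    if m % 2 = 0 then (E m).image (fun e => e * x) else (E m).image (fun e => x * e)
  obtain ⟨B, hB1, hB2⟩ := hall_part T (by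
    intro m x
    simp only [T]
    split_ifs
    · rw [Finset.card_image_of_injective _ (mul_left_injective x), hE]
    · rw [Finset.card_image_of_injective _ (mul_right_injective x), hE])
  refine ⟨fun n => B (2 * n) ∪ B (2 * n + 1), ?_, fun n => ⟨?_, ?_⟩⟩
  · intro i j hij
    simp only [disjoint_union_left, disjoint_union_right]
    refine ⟨⟨hB1 ?_, hB1 ?_⟩, hB1 ?_, hB1 ?_⟩ <;> omega
  · refine ⟨(E (2 * n) : Set G)⁻¹ * (E (2 * n) : Set G) * (E (2 * n) : Set G)⁻¹,
      ((E _).finite_toSet.inv.mul (E _).finite_toSet).mul (E _).finite_toSet.inv, ?_⟩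
    refine eq_univ_of_forall fun y => ?_
    obtain ⟨x, hxy, b, hb, hbx⟩ := hB2 (2 * n) y
    have hm : (2 * n) % 2 = 0 := by omega
    simp only [T, hm, if_true, Finset.not_disjoint_iff, Finset.mem_image] at hxy hbx
    obtain ⟨z, ⟨e1, he1, h1⟩, e2, he2, h2⟩ := hxy
    obtain ⟨e3, he3, h3⟩ := hbx
    refine ⟨e2⁻¹ * e1 * e3⁻¹, mul_mem_mul (mul_mem_mul (by simpa using he2) he1)
      (by simpa using he3), b, Or.inl hb, ?_⟩
    have hy : y = e2⁻¹ * (e1 * x) := by rw [h1, ← h2]; group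
    simp only
    rw [← h3, hy]; group
  · refine ⟨(E (2 * n + 1) : Set G)⁻¹ * (E (2 * n + 1) : Set G) * (E (2 * n + 1) : Set G)⁻¹,
      ((E _).finite_toSet.inv.mul (E _).finite_toSet).mul (E _).finite_toSet.inv, ?_⟩
    refine eq_univ_of_forall fun y => ?_
    obtain ⟨x, hxy, b, hb, hbx⟩ := hB2 (2 * n + 1) y
    have hm : ¬ (2 * n + 1) % 2 = 0 := by omega
    simp only [T, hm, if_false, Finset.not_disjoint_iff, Finset.mem_image] at hxy hbx
    obtain ⟨z, ⟨e1, he1, h1⟩, e2, he2, h2⟩ := hxy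
    obtain ⟨e3, he3, h3⟩ := hbx
    refine ⟨b, Or.inr hb, e3⁻¹ * e1 * e2⁻¹, mul_mem_mul (mul_mem_mul (by simpa using he3) he1)
      (by simpa using he2), ?_⟩
    have hy : y = (x * e1) * e2⁻¹ := by rw [h1, ← h2]; group
    simp only
    rw [← h3, hy]; group

theorem card_closure_le {G : Type u} [Group G] (s : Set G) :
    #(Subgroup.closure s) ≤ max #s ℵ₀ := by
  rcases s.eq_empty_or_nonempty with rfl | hs
  · rw [Subgroup.closure_empty]
    exact le_max_of_le_right mk_le_aleph0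
  · have : Nonempty s := hs.to_subtype
    rw [FreeGroup.closure_eq_range, ← mk_freeGroup]
    exact mk_range_le

theorem one_sided {G : Type u} [Group G] (κ : Cardinal.{u}) (h0 : ℵ₀ < κ) (hκ : κ ≤ #G)
    (E : Set G) (hE : E.Finite) :
    ∃ (J : Type u) (C : J → Set G), #J = κ ∧ Pairwise (fun i j => Disjoint (C i) (C j)) ∧
      (∀ j, ∀ x ∈ C j, ∀ k ∈ E, x * k⁻¹ ∈ C j) ∧
      ∀ j, ∃ L : Subgroup G, #L < κ ∧ E ⊆ L ∧ ∀ y, ∃ x ∈ C j, x⁻¹ * y ∈ L := by
  classical
  let ι := κ.ord.ToType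
  have hι : #ι = κ := mk_ord_toType _
  obtain ⟨e⟩ : Nonempty (ι ↪ G) := by
    rw [← Cardinal.le_def, hι]; exact hκ
  let K : Set ι → Subgroup G := fun S => Subgroup.closure (E ∪ e '' S)
  have Kmono : ∀ {S T : Set ι}, S ⊆ T → K S ≤ K T := fun h =>
    Subgroup.closure_mono (union_subset_union_right _ (image_mono h))
  have hEc : #E < κ := (lt_aleph0_iff_set_finite.2 hE).trans h0
  have hK : ∀ T : Set ι, #T < κ → #(K T) < κ := by
    intro T hT
    refine (card_closure_le _).trans_lt (max_lt ?_ h0)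
    exact (mk_union_le _ _).trans_lt (add_lt_of_lt h0.le hEc (mk_image_le.trans_lt hT))
  have hIio : ∀ i : ι, #(Iio i) < κ := by
    intro i
    have := mk_Iio_lt i (by simp [ι])
    rwa [hι] at this
  have hIic : ∀ i : ι, #(Iic i) < κ := by
    intro i
    rw [← Iio_insert]
    refine (mk_insert_le).trans_lt ?_
    exact add_lt_of_lt h0.le (hIio i) (one_lt_aleph0.trans h0)
  let J : Set ι := {a | e a ∉ K (Iio a)}
  have hJ : #J = κ := by
    apply le_antisymm ((mk_set_le J).trans hι.le)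
    by_contra hlt
    have hlt' : #J < κ := not_le.1 hlt
    have hall : ∀ a, e a ∈ K J := by
      intro a
      induction a using WellFoundedLT.induction with
      | ind a ih =>
        by_cases ha : a ∈ J
        · exact Subgroup.subset_closure (Or.inr ⟨a, ha, rfl⟩)
        · have ha' : e a ∈ K (Iio a) := not_not.1 ha
          refine (Subgroup.closure_le _).2 ?_ ha'
          rintro x (hx | ⟨b, hb, rfl⟩)
          · exact Subgroup.subset_closure (Or.inl hx)
          · exact ih b hb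
    have h1 : #ι ≤ #(K J) :=
      mk_le_of_injective (f := fun a => (⟨e a, hall a⟩ : K J))
        (fun a b h => e.injective (congrArg Subtype.val h))
    rw [hι] at h1
    exact absurd (hK J hlt') (not_lt.2 h1)
  have wf : WellFounded (WellOrderingRel (α := G)) := IsWellFounded.wf
  have hne : ∀ (L : Subgroup G) (x : G), {y | x⁻¹ * y ∈ L}.Nonempty :=
    fun L x => ⟨x, by simp⟩
  let m : Subgroup G → G → G := fun L x => wf.min _ (hne L x)
  have hm1 : ∀ L x, x⁻¹ * m L x ∈ L := fun L x => wf.min_mem _ (hne L x)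
  have hm2 : ∀ L x y, x⁻¹ * y ∈ L → ¬ WellOrderingRel y (m L x) := fun L x y h =>
    wf.not_lt_min {y | x⁻¹ * y ∈ L} (x := y) h
  have hm3 : ∀ (L L' : Subgroup G) x x', (∀ y, x⁻¹ * y ∈ L → x'⁻¹ * y ∈ L') →
      x⁻¹ * m L' x' ∈ L → m L x = m L' x' := by
    intro L L' x x' h1 h2
    rcases trichotomous_of (WellOrderingRel (α := G)) (m L x) (m L' x') with h | h | h
    · exact absurd h (hm2 L' x' _ (h1 _ (hm1 L x)))
    · exact h
    · exact absurd h (hm2 L x _ h2)
  have hm4 : ∀ (L : Subgroup G) x k, k ∈ L → m L (x * k) = m L x := by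
    intro L x k hk
    apply hm3
    · intro y hy
      have := mul_mem hk hy
      simpa [mul_assoc] using this
    · have := mul_mem (inv_mem hk) (hm1 L x)
      simpa [mul_assoc] using this
  have hEK : ∀ S, ∀ k ∈ E, k ∈ K S := fun S k hk => Subgroup.subset_closure (Or.inl hk)
  refine ⟨J, fun j => {x | x⁻¹ * m (K (Iio j.1)) x ∈ K ∅ ∧ x⁻¹ * m (K (Iic j.1)) x ∉ K ∅},
    hJ, ?_, ?_, ?_⟩
  · have aux : ∀ a b : ι, a < b → ∀ x, x⁻¹ * m (K (Iio b)) x ∈ K ∅ →
        x⁻¹ * m (K (Iic a)) x ∈ K ∅ := by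
      intro a b hab x hx
      rw [hm3 (K (Iic a)) (K (Iio b)) x x
        (fun y hy => Kmono (fun i hi => lt_of_le_of_lt hi hab) hy) (Kmono (empty_subset _) hx)]
      exact hx
    intro i j hij
    refine Set.disjoint_left.2 fun x hi hj => ?_
    rcases lt_trichotomy i.1 j.1 with h | h | h
    · exact hi.2 (aux _ _ h x hj.1)
    · exact hij (Subtype.ext h)
    · exact hj.2 (aux _ _ h x hi.1)
  · rintro j x ⟨hx1, hx2⟩ k hk
    simp only [mem_ofPred_eq]
    rw [hm4 _ x k⁻¹ (inv_mem (hEK _ k hk)), hm4 _ x k⁻¹ (inv_mem (hEK _ k hk))]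
    constructor
    · have := mul_mem (hEK ∅ k hk) hx1
      simpa [mul_assoc] using this
    · intro h
      apply hx2
      have := mul_mem (inv_mem (hEK ∅ k hk)) h
      simpa [mul_assoc] using this
  · intro j
    refine ⟨K (Iic j.1), hK _ (hIic _), fun k hk => hEK _ k hk, fun y => ?_⟩
    have hej : e j.1 ∈ K (Iic j.1) := Subgroup.subset_closure (Or.inr ⟨j.1, le_refl j.1, rfl⟩)
    have hsub : K (Iio j.1) ≤ K (Iic j.1) := Kmono Iio_subset_Iic_self
    let m0 := m (K (Iic j.1)) y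
    let z := m0 * e j.1
    let x := m (K (Iio j.1)) z
    have hzx : z⁻¹ * x ∈ K (Iio j.1) := hm1 _ _
    have hym : y⁻¹ * m0 ∈ K (Iic j.1) := hm1 _ _
    have hyx : y⁻¹ * x ∈ K (Iic j.1) := by
      have := mul_mem (mul_mem hym hej) (hsub hzx)
      simpa [z, mul_assoc] using this
    have hx1 : m (K (Iio j.1)) x = x := by
      have := hm4 _ z _ hzx
      rwa [mul_inv_cancel_left] at this
    have hx2 : m (K (Iic j.1)) x = m0 := by
      have := hm4 _ y _ hyx
      rwa [mul_inv_cancel_left] at this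
    refine ⟨x, ⟨?_, ?_⟩, ?_⟩
    · rw [hx1]; simp
    · rw [hx2]
      intro h
      apply j.2
      have h1 := inv_mem (mul_mem hzx (Kmono (empty_subset _) h))
      simpa [z, mul_assoc] using h1
    · simpa using inv_mem hyx

theorem family {G : Type u} [Group G] [Infinite G] (κ : Cardinal.{u}) (h0 : ℵ₀ ≤ κ)
    (hκ : κ ≤ #G) :
    ∃ (J : Type u) (A : J → Set G), #J = κ ∧ Pairwise (fun i j => Disjoint (A i) (A j)) ∧
      ∀ j, (∃ F : Set G, #F < κ ∧ F * A j = Set.univ) ∧
        (∃ F : Set G, #F < κ ∧ A j * F = Set.univ) := by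
  obtain ⟨B, hB1, hB2⟩ := countable_case (G := G)
  rcases eq_or_lt_of_le h0 with h | h
  · subst h
    refine ⟨ULift.{u} ℕ, fun n => B n.down, by simp, fun i j hij => hB1 (fun h => hij ?_),
      fun n => ?_⟩
    · exact ULift.ext _ _ h
    · obtain ⟨⟨F, hF, hF'⟩, ⟨F2, hF2, hF2'⟩⟩ := hB2 n.down
      exact ⟨⟨F, lt_aleph0_iff_set_finite.2 hF, hF'⟩, F2, lt_aleph0_iff_set_finite.2 hF2, hF2'⟩
  obtain ⟨-, F0, hF0, hF0'⟩ := hB2 0
  obtain ⟨⟨F1, hF1, hF1'⟩, -⟩ := hB2 1
  obtain ⟨J, C, hJ, hC1, hC2, hC3⟩ := one_sided κ h hκ (F0 ∪ F1⁻¹) (hF0.union hF1.inv)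
  have h01 : Disjoint (B 0) (B 1) := hB1 (by decide)
  refine ⟨J, fun j => (B 0 ∩ C j) ∪ (B 1 ∩ (C j)⁻¹), hJ, ?_, fun j => ?_⟩
  · intro i j hij
    refine Set.disjoint_left.2 ?_
    rintro x (⟨h1, h2⟩ | ⟨h1, h2⟩) (⟨h3, h4⟩ | ⟨h3, h4⟩)
    · exact Set.disjoint_left.1 (hC1 hij) h2 h4
    · exact Set.disjoint_left.1 h01 h1 h3
    · exact Set.disjoint_left.1 h01 h3 h1
    · exact Set.disjoint_left.1 (hC1 hij) h2 h4
  · obtain ⟨L, hL1, hL2, hL3⟩ := hC3 j
    constructor
    · refine ⟨L, hL1, eq_univ_of_forall fun y => ?_⟩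
      obtain ⟨x, hx, hxy⟩ := hL3 y⁻¹
      have : x⁻¹ ∈ F1 * B 1 := hF1' ▸ mem_univ _
      obtain ⟨f, hf, b, hb, hfb⟩ := this
      have hf' : f⁻¹ ∈ F0 ∪ F1⁻¹ := Or.inr (by simpa using hf)
      have hb' : b = f⁻¹ * x⁻¹ := by rw [← hfb]; simp
      refine ⟨y * x * f, ?_, b, Or.inr ⟨hb, ?_⟩, ?_⟩
      · have h1 : f ∈ L := by simpa using inv_mem (hL2 hf')
        have := mul_mem (inv_mem hxy) h1
        simpa using this
      · have := hC2 j x hx _ hf'
        rw [mem_inv, hb']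
        simpa using this
      · simp only
        rw [hb']; group
    · refine ⟨L, hL1, eq_univ_of_forall fun y => ?_⟩
      obtain ⟨x, hx, hxy⟩ := hL3 y
      have : x ∈ B 0 * F0 := hF0' ▸ mem_univ _
      obtain ⟨b, hb, f, hf, hfb⟩ := this
      have hf' : f ∈ F0 ∪ F1⁻¹ := Or.inl hf
      have hb' : b = x * f⁻¹ := by rw [← hfb]; simp
      refine ⟨b, Or.inl ⟨hb, hb' ▸ hC2 j x hx _ hf'⟩, f * (x⁻¹ * y), mul_mem (hL2 hf') hxy, ?_⟩
      simp only
      rw [hb']; group

theorem main {G : Type u} [Group G] [Infinite G] (κ : Cardinal.{u}) (h0 : ℵ₀ ≤ κ)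
    (hκ : κ ≤ #G) :
    ∃ P : Set (Set G), Setoid.IsPartition P ∧ #P = κ ∧
      ∀ A ∈ P, (∃ F : Set G, #F < κ ∧ F * A = Set.univ) ∧
        (∃ F : Set G, #F < κ ∧ A * F = Set.univ) := by
  classical
  obtain ⟨J, A, hJ, hA1, hA2⟩ := family (G := G) κ h0 hκ
  have hJne : Nonempty J := by
    rw [← mk_ne_zero_iff, hJ]
    exact (aleph0_pos.trans_le h0).ne'
  obtain ⟨j0⟩ := hJne
  let c : G → J := fun g => if h : ∃ j, g ∈ A j then h.choose else j0
  have hc : ∀ j, A j ⊆ c ⁻¹' {j} := by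
    intro j g hg
    have h : ∃ j, g ∈ A j := ⟨j, hg⟩
    simp only [c, mem_preimage, mem_singleton_iff, dif_pos h]
    by_contra hne
    exact Set.disjoint_left.1 (hA1 hne) h.choose_spec hg
  have hne : ∀ j, (A j).Nonempty := by
    intro j
    obtain ⟨⟨F, -, hF⟩, -⟩ := hA2 j
    have : (1 : G) ∈ F * A j := hF ▸ mem_univ _
    obtain ⟨f, -, a, ha, -⟩ := this
    exact ⟨a, ha⟩
  refine ⟨range (fun j => c ⁻¹' {j}), ⟨?_, fun g => ?_⟩, ?_, ?_⟩
  · rintro ⟨j, hj⟩
    exact ((hne j).mono (hc j)).ne_empty hj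
  · refine ⟨c ⁻¹' {c g}, ⟨⟨c g, rfl⟩, rfl⟩, ?_⟩
    rintro _ ⟨⟨j, rfl⟩, hj⟩
    have : c g = j := hj
    rw [this]
  · rw [mk_range_eq _ ?_, hJ]
    intro i j hij
    obtain ⟨a, ha⟩ := hne i
    have h1 : a ∈ c ⁻¹' {i} := hc i ha
    have h2 : a ∈ c ⁻¹' {j} := by
      simp only at hij
      rw [← hij]; exact h1
    exact Eq.trans (Eq.symm h1) h2
  · rintro _ ⟨j, rfl⟩
    obtain ⟨⟨F, hF, hF'⟩, F2, hF2, hF2'⟩ := hA2 j
    exact ⟨⟨F, hF, eq_univ_of_univ_subset (hF' ▸ mul_subset_mul_left (hc j))⟩,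
      F2, hF2, eq_univ_of_univ_subset (hF2' ▸ mul_subset_mul_right (hc j))⟩

end Pool.Agent.H.MP_9865ab_al
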